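import Mathlib

/-!
# Kirchberger-type theorem for separation of compact sets by spheres of radius at most one
-/

set_option autoImplicit false

open Module Set

namespace Pool.Agent.Results.MP_f10258_co.CompactKirchberger

/-- Euclidean space -/
abbrev E (d : ℕ) : Type := EuclideanSpace ℝ (Fin d)

/-- `X` and `Y` are strictly separated by the sphere with centre `c` and radius `r`: neither meets
the sphere, and one lies in the open ball while the other lies outside the closed ball. -/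
def StrictlySeparated {d : ℕ} (X Y : Set (E d)) (c : E d) (r : ℝ) : Prop :=
  X ∩ Metric.sphere c r = ∅ ∧ Y ∩ Metric.sphere c r = ∅ ∧
    ((X ⊆ Metric.ball c r ∧ Y ⊆ (Metric.closedBall c r)ᶜ) ∨
      (Y ⊆ Metric.ball c r ∧ X ⊆ (Metric.closedBall c r)ᶜ))

/-- `(X, Y)` is small-sphere separable: some sphere of radius `0 < r ≤ 1` strictly separates `X` and
`Y`, with `X` in the open ball. -/
def SmallSphereSeparable {d : ℕ} (X Y : Set (E d)) : Prop :=
  ∃ (c : E d) (r : ℝ), 0 < r ∧ r ≤ 1 ∧ StrictlySeparated X Y c r ∧ X ⊆ Metric.ball c r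

lemma separable_of {d : ℕ} (X Y : Set (E d)) (c : E d) (r : ℝ) (h0 : 0 < r) (h1 : r ≤ 1)
    (hX : ∀ x ∈ X, dist x c < r) (hY : ∀ y ∈ Y, r < dist y c) : SmallSphereSeparable X Y := by
  have h2 : X ⊆ Metric.ball c r := fun x hx => Metric.mem_ball.2 (hX x hx)
  have h3 : Y ⊆ (Metric.closedBall c r)ᶜ := fun y hy h => by
    have := Metric.mem_closedBall.1 h
    have := hY y hy
    linarith
  refine ⟨c, r, h0, h1, ⟨?_, ?_, Or.inl ⟨h2, h3⟩⟩, h2⟩
  · rw [eq_empty_iff_forall_notMem]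
    rintro x ⟨hx, hs⟩
    have := Metric.mem_sphere.1 hs
    have := hX x hx
    linarith
  · rw [eq_empty_iff_forall_notMem]
    rintro x ⟨hx, hs⟩
    have := Metric.mem_sphere.1 hs
    have := hY x hx
    linarith

lemma of_separable {d : ℕ} (X Y : Set (E d)) (hX : X.Nonempty) (h : SmallSphereSeparable X Y) :
    ∃ (c : E d) (r : ℝ), 0 < r ∧ r ≤ 1 ∧ (∀ x ∈ X, dist x c < r) ∧ ∀ y ∈ Y, r < dist y c := by
  obtain ⟨c, r, h0, h1, ⟨-, -, h2⟩, h3⟩ := h
  refine ⟨c, r, h0, h1, fun x hx => Metric.mem_ball.1 (h3 hx), ?_⟩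
  rcases h2 with ⟨-, h4⟩ | ⟨-, h4⟩
  · intro y hy
    have := h4 hy
    rw [mem_compl_iff, Metric.mem_closedBall, not_le] at this
    exact this
  · obtain ⟨x, hx⟩ := hX
    have h5 := Metric.mem_ball.1 (h3 hx)
    have h6 := h4 hx
    rw [mem_compl_iff, Metric.mem_closedBall, not_le] at h6
    linarith

lemma separable_mono {d : ℕ} (X Y X' Y' : Set (E d)) (hX : X' ⊆ X) (hY : Y' ⊆ Y)
    (h : SmallSphereSeparable X Y) : SmallSphereSeparable X' Y' := by
  obtain ⟨c, r, h0, h1, ⟨h2, h3, h4⟩, h5⟩ := h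
  refine ⟨c, r, h0, h1, ⟨?_, ?_, ?_⟩, hX.trans h5⟩
  · exact subset_eq_empty (inter_subset_inter_left _ hX) h2
  · exact subset_eq_empty (inter_subset_inter_left _ hY) h3
  · rcases h4 with ⟨h6, h7⟩ | ⟨h6, h7⟩
    · exact Or.inl ⟨hX.trans h6, hY.trans h7⟩
    · exact Or.inr ⟨hY.trans h6, hX.trans h7⟩

section Main

variable {d : ℕ} (A B : Set (E d))

/-- the margin of a point -/
noncomputable def margin : A ⊕ B → (E d × ℝ) → ℝ
  | Sum.inl a, z => z.2 - ‖(a : E d)‖ ^ 2 + 2 * inner ℝ (a : E d) z.1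
  | Sum.inr b, z => ‖(b : E d)‖ ^ 2 - 2 * inner ℝ (b : E d) z.1 - z.2

lemma margin_inl (a : A) (c : E d) (r : ℝ) :
    margin A B (Sum.inl a) (c, r ^ 2 - ‖c‖ ^ 2) = r ^ 2 - dist (a : E d) c ^ 2 := by
  rw [dist_eq_norm, @norm_sub_sq_real, margin]
  ring

lemma margin_inr (b : B) (c : E d) (r : ℝ) :
    margin A B (Sum.inr b) (c, r ^ 2 - ‖c‖ ^ 2) = dist (b : E d) c ^ 2 - r ^ 2 := by
  rw [dist_eq_norm, @norm_sub_sq_real, margin]
  ring

lemma continuous_margin_left (z : E d × ℝ) : Continuous fun i => margin A B i z := by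
  rw [continuous_sum_dom]
  constructor
  · change Continuous fun a : A => z.2 - ‖(a : E d)‖ ^ 2 + 2 * inner ℝ (a : E d) z.1
    fun_prop
  · change Continuous fun b : B => ‖(b : E d)‖ ^ 2 - 2 * inner ℝ (b : E d) z.1 - z.2
    fun_prop

lemma continuous_margin_right (i : A ⊕ B) : Continuous fun z => margin A B i z := by
  rcases i with a | b
  · change Continuous fun z : E d × ℝ => z.2 - ‖(a : E d)‖ ^ 2 + 2 * inner ℝ (a : E d) z.1
    fun_prop
  · change Continuous fun z : E d × ℝ => ‖(b : E d)‖ ^ 2 - 2 * inner ℝ (b : E d) z.1 - z.2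
    fun_prop

lemma margin_comb (i : A ⊕ B) (z w : E d × ℝ) (s t : ℝ) (hst : s + t = 1) :
    margin A B i (s • z + t • w) = s * margin A B i z + t * margin A B i w := by
  have ht : t = 1 - s := by linarith
  subst ht
  rcases i with a | b
  · simp only [margin, Prod.fst_add, Prod.snd_add, Prod.smul_fst, Prod.smul_snd, inner_add_right,
      inner_smul_right, smul_eq_mul]
    ring
  · simp only [margin, Prod.fst_add, Prod.snd_add, Prod.smul_fst, Prod.smul_snd, inner_add_right,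
      inner_smul_right, smul_eq_mul]
    ring

/-- the admissible parameters -/
def dom (R : ℝ) : Set (E d × ℝ) :=
  {z | ‖z.1‖ ≤ R ∧ |z.2| ≤ 1 + R ^ 2 ∧ z.2 + ‖z.1‖ ^ 2 ≤ 1}

lemma isClosed_dom (R : ℝ) : IsClosed (dom (d := d) R) := by
  have h1 : IsClosed {z : E d × ℝ | ‖z.1‖ ≤ R} := isClosed_le (by fun_prop) continuous_const
  have h2 : IsClosed {z : E d × ℝ | |z.2| ≤ 1 + R ^ 2} :=
    isClosed_le (by fun_prop) continuous_const
  have h3 : IsClosed {z : E d × ℝ | z.2 + ‖z.1‖ ^ 2 ≤ 1} :=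
    isClosed_le (by fun_prop) continuous_const
  exact h1.inter (h2.inter h3)

lemma isCompact_dom (R : ℝ) : IsCompact (dom (d := d) R) := by
  refine IsCompact.of_isClosed_subset
    ((isCompact_closedBall (0 : E d) R).prod (isCompact_Icc (a := -(1 + R ^ 2)) (b := 1 + R ^ 2)))
    (isClosed_dom R) ?_
  rintro z ⟨h1, h2, -⟩
  refine ⟨?_, ?_⟩
  · rw [Metric.mem_closedBall, dist_zero_right]
    exact h1
  · exact abs_le.1 h2

lemma convex_dom (R : ℝ) : Convex ℝ (dom (d := d) R) := by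
  rintro z ⟨h1, h2, h3⟩ w ⟨k1, k2, k3⟩ s t hs ht hst
  have e1 : ‖s • z.1 + t • w.1‖ ≤ s * ‖z.1‖ + t * ‖w.1‖ := by
    refine (norm_add_le _ _).trans ?_
    rw [norm_smul, norm_smul, Real.norm_of_nonneg hs, Real.norm_of_nonneg ht]
  have hn0 := norm_nonneg (s • z.1 + t • w.1)
  have hz := norm_nonneg z.1
  have hw := norm_nonneg w.1
  have ht' : t = 1 - s := by linarith
  refine ⟨?_, ?_, ?_⟩
  · change ‖s • z.1 + t • w.1‖ ≤ R
    calc ‖s • z.1 + t • w.1‖ ≤ s * ‖z.1‖ + t * ‖w.1‖ := e1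
      _ ≤ s * R + t * R := by gcongr
      _ = R := by rw [← add_mul, hst, one_mul]
  · change |s * z.2 + t * w.2| ≤ 1 + R ^ 2
    calc |s * z.2 + t * w.2| ≤ |s * z.2| + |t * w.2| := abs_add_le _ _
      _ = s * |z.2| + t * |w.2| := by rw [abs_mul, abs_mul, abs_of_nonneg hs, abs_of_nonneg ht]
      _ ≤ s * (1 + R ^ 2) + t * (1 + R ^ 2) := by gcongr
      _ = 1 + R ^ 2 := by rw [← add_mul, hst, one_mul]
  · change (s * z.2 + t * w.2) + ‖s • z.1 + t • w.1‖ ^ 2 ≤ 1
    have e2 : ‖s • z.1 + t • w.1‖ ^ 2 ≤ (s * ‖z.1‖ + t * ‖w.1‖) ^ 2 := by gcongr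
    have e3 : (s * ‖z.1‖ + t * ‖w.1‖) ^ 2 ≤ s * ‖z.1‖ ^ 2 + t * ‖w.1‖ ^ 2 := by
      have : s * ‖z.1‖ ^ 2 + t * ‖w.1‖ ^ 2 - (s * ‖z.1‖ + t * ‖w.1‖) ^ 2 =
          s * t * (‖z.1‖ - ‖w.1‖) ^ 2 := by
        rw [ht']
        ring
      have h5 : 0 ≤ s * t * (‖z.1‖ - ‖w.1‖) ^ 2 := by positivity
      linarith
    have e4 : s * (z.2 + ‖z.1‖ ^ 2) + t * (w.2 + ‖w.1‖ ^ 2) ≤ s * 1 + t * 1 := by gcongr
    linarith

/-- the compact convex sets -/
def KK (R : ℝ) (N : ℕ) (i : A ⊕ B) : Set (E d × ℝ) :=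
  dom R ∩ {z | 1 / ((N : ℝ) + 1) ≤ margin A B i z}

lemma isCompact_KK (R : ℝ) (N : ℕ) (i : A ⊕ B) : IsCompact (KK A B R N i) :=
  (isCompact_dom R).inter_right (isClosed_le continuous_const (continuous_margin_right A B i))

lemma convex_KK (R : ℝ) (N : ℕ) (i : A ⊕ B) : Convex ℝ (KK A B R N i) := by
  apply (convex_dom R).inter
  intro z hz w hw s t hs ht hst
  rw [mem_ofPred_eq] at *
  rw [margin_comb A B i z w s t hst]
  calc 1 / ((N : ℝ) + 1) = s * (1 / ((N : ℝ) + 1)) + t * (1 / ((N : ℝ) + 1)) := by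
        rw [← add_mul, hst, one_mul]
    _ ≤ _ := by gcongr

/-- the open sets of the covering -/
def OO (R : ℝ) (N : ℕ) : Set (Fin (d + 2) → A ⊕ B) :=
  ⋃ z ∈ dom (d := d) R, ⋂ j, {f | 1 / ((N : ℝ) + 1) < margin A B (f j) z}

lemma isOpen_OO (R : ℝ) (N : ℕ) : IsOpen (OO A B R N) := by
  refine isOpen_biUnion fun z _ => isOpen_iInter_of_finite fun j => ?_
  exact isOpen_lt continuous_const ((continuous_margin_left A B z).comp (continuous_apply j))

lemma exists_far (hd : 1 ≤ d) (hB : IsCompact B) :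
    ∃ c : E d, ∀ b ∈ B, 2 ≤ dist b c := by
  obtain ⟨R, hR⟩ := hB.isBounded.exists_norm_le
  set e : E d := EuclideanSpace.single ⟨0, hd⟩ (1 : ℝ) with he
  have hne : ‖e‖ = 1 := by rw [he]; simp
  refine ⟨(|R| + 2) • e, fun b hb => ?_⟩
  have h1 : ‖(|R| + 2) • e‖ = |R| + 2 := by
    rw [norm_smul, hne, mul_one, Real.norm_of_nonneg (by positivity)]
  have h2 := norm_sub_norm_le ((|R| + 2) • e) b
  rw [dist_comm, dist_eq_norm]
  have h3 := hR b hb
  have h4 := le_abs_self R
  linarith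

end Main

/-- Let `d ≥ 1` and let `A, B` be compact subsets of `d`-dimensional Euclidean space. Then `(A, B)`
is small-sphere separable if and only if `(T ∩ A, T ∩ B)` is small-sphere separable for all
`T ⊆ A ∪ B` with at most `d + 2` points. -/
theorem result (d : ℕ) (hd : 1 ≤ d) (A B : Set (E d)) (hA : IsCompact A) (hB : IsCompact B) :
    SmallSphereSeparable A B ↔
      ∀ T : Finset (E d), (T : Set (E d)) ⊆ A ∪ B → T.card ≤ d + 2 →
        SmallSphereSeparable ((T : Set (E d)) ∩ A) ((T : Set (E d)) ∩ B) := by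
  classical
  constructor
  · intro h T _ _
    exact separable_mono A B _ _ inter_subset_right inter_subset_right h
  intro h
  obtain ⟨c₀, hc₀⟩ := exists_far B hd hB
  rcases A.eq_empty_or_nonempty with hA0 | hA0
  · subst hA0
    exact separable_of ∅ B c₀ 1 one_pos le_rfl (fun x hx => absurd hx (notMem_empty x))
      (fun y hy => by have := hc₀ y hy; linarith)
  obtain ⟨RA, hRA⟩ := hA.isBounded.exists_norm_le
  set R : ℝ := |RA| + 1 + ‖c₀‖ with hR
  have : CompactSpace A := isCompact_iff_compactSpace.1 hA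
  have : CompactSpace B := isCompact_iff_compactSpace.1 hB
  -- the covering
  have hcover : (univ : Set (Fin (d + 2) → A ⊕ B)) ⊆ ⋃ N, OO A B R N := by
    intro f _
    -- a good parameter
    have h1 : ∃ z ∈ dom (d := d) R, ∀ j, 0 < margin A B (f j) z := by
      by_cases hex : ∃ j, ∃ a, f j = Sum.inl a
      · obtain ⟨j₀, a₀, hj₀⟩ := hex
        set pt : A ⊕ B → E d := Sum.elim (fun a => (a : E d)) (fun b => (b : E d)) with hpt
        set T : Finset (E d) := Finset.univ.image fun j => pt (f j) with hT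
        have hTsub : (T : Set (E d)) ⊆ A ∪ B := by
          intro x hx
          obtain ⟨j, -, rfl⟩ := Finset.mem_image.1 (Finset.mem_coe.1 hx)
          rcases f j with a | b
          · exact Or.inl a.2
          · exact Or.inr b.2
        have hTcard : T.card ≤ d + 2 := by
          refine Finset.card_image_le.trans ?_
          rw [Finset.card_univ, Fintype.card_fin]
        have hmem : ∀ j, pt (f j) ∈ (T : Set (E d)) := fun j =>
          Finset.mem_coe.2 (Finset.mem_image.2 ⟨j, Finset.mem_univ _, rfl⟩)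
        have hne : ((T : Set (E d)) ∩ A).Nonempty := by
          refine ⟨a₀, ?_, a₀.2⟩
          have := hmem j₀
          rw [hj₀] at this
          exact this
        obtain ⟨c, r, hr0, hr1, hin, hout⟩ := of_separable _ _ hne (h T hTsub hTcard)
        have hin' : ∀ j a, f j = Sum.inl a → dist (a : E d) c < r := by
          intro j a hja
          refine hin a ⟨?_, a.2⟩
          have := hmem j
          rw [hja] at this
          exact this
        have hout' : ∀ j b, f j = Sum.inr b → r < dist (b : E d) c := by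
          intro j b hjb
          refine hout b ⟨?_, b.2⟩
          have := hmem j
          rw [hjb] at this
          exact this
        refine ⟨(c, r ^ 2 - ‖c‖ ^ 2), ⟨?_, ?_, ?_⟩, ?_⟩
        · have h2 := hin' j₀ a₀ hj₀
          rw [dist_eq_norm] at h2
          have h3 := norm_sub_norm_le c (a₀ : E d)
          rw [norm_sub_rev] at h3
          have h4 := hRA a₀ a₀.2
          have h5 := le_abs_self RA
          have h6 := norm_nonneg c₀
          change ‖c‖ ≤ R
          linarith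
        · have h2 := hin' j₀ a₀ hj₀
          rw [dist_eq_norm] at h2
          have h3 := norm_sub_norm_le c (a₀ : E d)
          rw [norm_sub_rev] at h3
          have h4 := hRA a₀ a₀.2
          have h5 := le_abs_self RA
          have h6 := norm_nonneg c₀
          have h7 : ‖c‖ ≤ R := by linarith
          have h8 := norm_nonneg c
          change |r ^ 2 - ‖c‖ ^ 2| ≤ 1 + R ^ 2
          rw [abs_le]
          constructor
          · nlinarith [pow_le_pow_left₀ h8 h7 2, sq_nonneg r]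
          · nlinarith [sq_nonneg R, sq_nonneg ‖c‖]
        · change r ^ 2 - ‖c‖ ^ 2 + ‖c‖ ^ 2 ≤ 1
          nlinarith
        · intro j
          rcases hfj : f j with a | b
          · rw [margin_inl]
            have h2 := hin' j a hfj
            have h3 := dist_nonneg (x := (a : E d)) (y := c)
            nlinarith
          · rw [margin_inr]
            have h2 := hout' j b hfj
            nlinarith
      · push Not at hex
        have h2 : (r : ℝ) → r = 1 → (c₀, (1 : ℝ) ^ 2 - ‖c₀‖ ^ 2) ∈ dom (d := d) R := by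
          intro r _
          have h3 := norm_nonneg c₀
          have h4 := abs_nonneg RA
          refine ⟨?_, ?_, ?_⟩
          · change ‖c₀‖ ≤ R
            linarith
          · change |(1 : ℝ) ^ 2 - ‖c₀‖ ^ 2| ≤ 1 + R ^ 2
            have h5 : ‖c₀‖ ≤ R := by linarith
            rw [abs_le]
            constructor
            · nlinarith [pow_le_pow_left₀ h3 h5 2]
            · nlinarith [sq_nonneg R, sq_nonneg ‖c₀‖]
          · change (1 : ℝ) ^ 2 - ‖c₀‖ ^ 2 + ‖c₀‖ ^ 2 ≤ 1
            norm_num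
        refine ⟨(c₀, (1 : ℝ) ^ 2 - ‖c₀‖ ^ 2), h2 1 rfl, ?_⟩
        intro j
        rcases hfj : f j with a | b
        · exact absurd hfj (hex j a)
        · rw [margin_inr]
          have h3 := hc₀ b b.2
          nlinarith
    obtain ⟨z, hz, hpos⟩ := h1
    have h2 : ∀ᶠ N : ℕ in Filter.atTop, ∀ j, 1 / ((N : ℝ) + 1) < margin A B (f j) z := by
      rw [Filter.eventually_all]
      intro j
      exact tendsto_one_div_add_atTop_nhds_zero_nat.eventually_lt_const (hpos j)
    obtain ⟨N, hN⟩ := h2.exists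
    refine mem_iUnion.2 ⟨N, ?_⟩
    rw [OO, mem_iUnion₂]
    exact ⟨z, hz, mem_iInter.2 fun j => hN j⟩
  have hdir : Directed (· ⊆ ·) (OO A B R) := by
    apply Monotone.directed_le
    intro M N hMN f hf
    rw [OO, mem_iUnion₂] at hf ⊢
    obtain ⟨z, hz, hf⟩ := hf
    refine ⟨z, hz, mem_iInter.2 fun j => ?_⟩
    have h1 := mem_iInter.1 hf j
    rw [mem_ofPred_eq] at h1 ⊢
    refine lt_of_le_of_lt ?_ h1
    gcongr
  obtain ⟨N, hN⟩ := isCompact_univ.elim_directed_cover (OO A B R) (isOpen_OO A B R) hcover hdir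
  -- Helly
  obtain ⟨a₁, ha₁⟩ := hA0
  have hfin : finrank ℝ (E d × ℝ) = d + 1 := by
    rw [finrank_prod, finrank_euclideanSpace, Fintype.card_fin, finrank_self]
  have hhelly : (⋂ i, KK A B R N i).Nonempty := by
    refine Convex.helly_theorem_compact' (𝕜 := ℝ) (convex_KK A B R N) (isCompact_KK A B R N) ?_
    intro I hI
    rw [hfin] at hI
    -- enumerate `I`
    set f : Fin (d + 2) → A ⊕ B := fun j =>
      if hj : (j : ℕ) < I.card then (I.equivFin.symm ⟨j, hj⟩ : A ⊕ B) else Sum.inl ⟨a₁, ha₁⟩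
      with hf
    have hsurj : ∀ i ∈ I, ∃ j, f j = i := by
      intro i hi
      set k := I.equivFin ⟨i, hi⟩ with hk
      refine ⟨⟨k, lt_of_lt_of_le k.2 hI⟩, ?_⟩
      rw [hf]
      simp only
      rw [dif_pos k.2]
      have : (⟨(k : ℕ), k.2⟩ : Fin I.card) = k := rfl
      rw [this, hk, Equiv.symm_apply_apply]
    have h1 := hN (mem_univ f)
    rw [OO, mem_iUnion₂] at h1
    obtain ⟨z, hz, hzf⟩ := h1
    refine ⟨z, mem_iInter₂.2 fun i hi => ?_⟩
    obtain ⟨j, rfl⟩ := hsurj i hi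
    have h2 := mem_iInter.1 hzf j
    rw [mem_ofPred_eq] at h2
    refine ⟨hz, ?_⟩
    rw [mem_ofPred_eq]
    exact h2.le
  obtain ⟨⟨c, s⟩, hz⟩ := hhelly
  rw [mem_iInter] at hz
  have hdom := (hz (Sum.inl ⟨a₁, ha₁⟩)).1
  have hNpos : (0 : ℝ) < 1 / ((N : ℝ) + 1) := by positivity
  have hin : ∀ a ∈ A, dist a c ^ 2 < s + ‖c‖ ^ 2 := by
    intro a ha
    have h1 := (hz (Sum.inl ⟨a, ha⟩)).2
    rw [mem_ofPred_eq, margin] at h1
    rw [dist_eq_norm, @norm_sub_sq_real]
    simp only at h1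
    linarith
  have hout : ∀ b ∈ B, s + ‖c‖ ^ 2 < dist b c ^ 2 := by
    intro b hb
    have h1 := (hz (Sum.inr ⟨b, hb⟩)).2
    rw [mem_ofPred_eq, margin] at h1
    rw [dist_eq_norm, @norm_sub_sq_real]
    simp only at h1
    linarith
  have hpos : 0 < s + ‖c‖ ^ 2 := lt_of_le_of_lt (sq_nonneg _) (hin a₁ ha₁)
  have hsq : Real.sqrt (s + ‖c‖ ^ 2) ^ 2 = s + ‖c‖ ^ 2 := Real.sq_sqrt hpos.le
  refine separable_of A B c (Real.sqrt (s + ‖c‖ ^ 2)) (Real.sqrt_pos.2 hpos) ?_ ?_ ?_
  · rw [Real.sqrt_le_iff]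
    refine ⟨zero_le_one, ?_⟩
    rw [one_pow]
    exact hdom.2.2
  · intro a ha
    apply Real.lt_sqrt_of_sq_lt
    exact hin a ha
  · intro b hb
    rw [Real.sqrt_lt' (by
      have h1 := hout b hb
      have h2 := dist_nonneg (x := b) (y := c)
      rcases h2.eq_or_lt with h3 | h3
      · rw [← h3] at h1
        norm_num at h1
        linarith
      · exact h3)]
    exact hout b hb

end Pool.Agent.Results.MP_f10258_co.CompactKirchberger
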